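import Pool.Agent.OMF.Stmts

/-! Squad OMF, row FIN: the bound for the number of omissible points. -/

namespace Pool.Agent.OMF.H75

open Finset Pool.Agent.GTO Pool.Agent.OMF
open scoped Classical

theorem rc_card {ι : Type} [Fintype ι] (a : ι → V) (k : ℕ) : ∀ C ∈ RC a k, k ≤ C.card :=
  fun _ hC => (mem_filter.1 hC).2.1

theorem off_rich {ι : Type} [Fintype ι] (a : ι → V) (k : ℕ) (S R : Finset ι)
    (h : ∀ p ∈ S, p ∈ R ∨ p ∉ UU a k) : S.card ≤ R.card + (univ \ UU a k).card := by
  refine le_trans (card_le_card ?_) (card_union_le _ _)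
  intro p hp
  rcases h p hp with h | h
  · exact mem_union_left _ h
  · exact mem_union_right _ (mem_sdiff.2 ⟨mem_univ _, h⟩)

theorem fin (bra : BraStmt) (num : NumStmt) (str : StrStmt) (rci : RciStmt) (fmx : FmxStmt)
    (cnt : CntStmt) : FinStmt := by
  intro X0 hX hcol
  obtain ⟨X, rfl⟩ := hX.exists_finset_coe
  rw [Set.ncard_coe_finset]
  obtain ⟨hPI, hSpn, hcard, hT2, hOm, hrich, hcub⟩ := bra X hcol
  rw [← hT2, hOm]
  by_contra hlt
  have hlt' := not_le.1 hlt
  have hD : 0 < 3 * (univ.filter fun p => Om (fam X) p).card - X.card := by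
    by_contra h0
    have h0' : 3 * (univ.filter fun p => Om (fam X) p).card - X.card = 0 :=
      Nat.eq_zero_of_not_pos h0
    rw [h0', zero_pow (by norm_num)] at hlt'
    exact Nat.not_lt_zero _ hlt'
  have hmn : (univ.filter fun p => Om (fam X) p).card ≤ X.card := by
    rw [← hcard]
    exact card_le_univ _
  have hT3 : 3 ≤ T2 (fam X) := (cnt _ (fam X) hPI hSpn).2.2.2
  obtain ⟨k, hk10, hkn, hkk, hk⟩ := num _ _ _ _ rfl hD hmn hT3 hlt'
  have hEX : (EX (fam X) k).card * (k * k) ≤ 18 * (X.card * X.card) := by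
    have h := fmx {p // p ∈ X} (RC (fam X) k) k (by rw [hcard]; exact hkk)
      (rc_card _ _) (rci.1 _ (fam X) hPI k)
    rw [hcard] at h
    exact h
  have hmU := hrich k (by omega) (by nlinarith)
  have hw := off_rich (fam X) k (univ.filter fun p => Om (fam X) p)
    (univ.filter fun p => Om (fam X) p ∧ p ∈ UU (fam X) k) (by
      intro p hp
      by_cases h : p ∈ UU (fam X) k
      · exact Or.inl (mem_filter.2 ⟨mem_univ _, (mem_filter.1 hp).2, h⟩)
      · exact Or.inr h)
  obtain ⟨μ, hμ, h1, h2, h3⟩ := hk _ _ _ hEX hmU hw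
  obtain ⟨c, hc, hoff⟩ := str _ (fam X) hPI hSpn k k μ (EX (fam X) k).card hk10 hk10
    (Nat.le_succ k) (by rw [hcard]; exact hkn) hμ le_rfl h1 (by rw [hcard]; exact h2)
  have h4 := hcub c hc
  have h5 := h3 _ hoff
  omega

end Pool.Agent.OMF.H75
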